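import Pool.Agent.MWLQ.StmtsA

/-!
# Row DQS of squad MWLQ: the residues which cross form a group
-/

set_option autoImplicit false

namespace Pool.Agent.MWLQ.H98

open Pool.Agent.Helper14_MV
open Pool.Agent.Helper2_MV (RR)
open Pool.Agent.MWGQ (pw Z Gn)
open Pool.Agent.MWLQ

/-- `0^i 1 0^j 2 1` -/
def Wq (i j : ℕ) : List ℕ := Z i ++ 1 :: (Z j ++ [2, 1])

theorem pw_one (a : ℕ) : pw a [0] = Z a := by
  unfold pw
  induction a with
  | zero => rfl
  | succ a ih =>
    rw [List.replicate_succ, List.flatten_cons, ih]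
    rfl

theorem Wq_mod (h1 : MWGQ.PwxStmt) {n : ℕ} {β : FIC} (hG : Gn n β) {a a' b b' : ℕ}
    (ha : 2 ≤ a) (ha' : 2 ≤ a') (haa : a ≡ a' [MOD n]) (hb : 1 ≤ b) (hb' : 1 ≤ b')
    (hbb : b ≡ b' [MOD n]) : RR β (Wq a b) (Wq a' b') := by
  have r1 := (h1 n β hG).1 [0] a a' ha ha' haa
  rw [pw_one, pw_one] at r1
  have r1' : RR β (Wq a b) (Wq a' b) := r1.append (Helper2_MV.RR.refl (1 :: (Z b ++ [2, 1])))
  have r2 := (h1 n β hG).2.1 [0] (Z (a' - 1) ++ [1]) b b' hb hb' hbb
  rw [pw_one, pw_one] at r2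
  have r2' := r2.append (Helper2_MV.RR.refl (β := β) [2, 1])
  have e : ∀ c : ℕ, [0] ++ (Z (a' - 1) ++ [1] ++ Z c) ++ [2, 1] = Wq a' c := by
    intro c
    obtain ⟨m, hm⟩ : ∃ m, a' = m + 1 := ⟨a' - 1, by omega⟩
    rw [hm, Nat.add_sub_cancel]
    simp [Wq, Z, List.replicate_succ]
  rw [e, e] at r2'
  exact β.trans r1' r2'

theorem Dq_key (h1 : MWGQ.PwxStmt) {n : ℕ} {β : FIC} (hG : Gn n β) {g : ℕ} (hg : Dq n g β)
    {a b : ℕ} (ha : 2 ≤ a) (hb : 1 ≤ b) : RR β (Wq (a + g) b) (Wq a (b + g)) := by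
  have hn := hG.pos
  have s1 := hg.sub (fun c => if c = 0 then [0] else if c = 1 then [1] else Z b ++ [2])
  have s2 := (Helper2_MV.RR.refl (β := β) (Z a)).append s1
  have e0 : ∀ i : ℕ, (Z i).flatMap (fun c => if c = 0 then [0] else if c = 1 then [1] else
      Z b ++ [2]) = Z i := by
    intro i
    induction i with
    | zero => rfl
    | succ i ih =>
      rw [show Z (i + 1) = 0 :: Z i from rfl, List.flatMap_cons, ih]
      rfl
  have e1 : ∀ i j : ℕ, Z a ++ (Z i ++ 1 :: (Z j ++ [2, 1])).flatMap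
      (fun c => if c = 0 then [0] else if c = 1 then [1] else Z b ++ [2]) =
      Wq (a + i) (j + b) := by
    intro i j
    have e2 : Z (a + i) = Z a ++ Z i := (List.replicate_append_replicate).symm
    have e3 : Z (j + b) = Z j ++ Z b := (List.replicate_append_replicate).symm
    unfold Wq
    rw [List.flatMap_append, List.flatMap_cons, List.flatMap_append, e0, e0, e2, e3]
    simp [-List.replicate_append_replicate]
  rw [e1, e1] at s2
  have r1 : RR β (Wq (a + g) b) (Wq (a + (2 * n + g)) (n + b)) := by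
    refine Wq_mod h1 hG (by omega) (by omega) ?_ hb (by omega) ?_
    · have : a + (2 * n + g) = (a + g) + n * 2 := by ring
      rw [this]
      exact (Nat.ModEq.refl _).trans (by
        have := (Nat.add_mul_mod_self_left (a + g) n 2)
        exact this.symm)
    · exact (Nat.add_mod_left n b).symm
  have r2 : RR β (Wq (a + 2 * n) (n + g + b)) (Wq a (b + g)) := by
    refine Wq_mod h1 hG (by omega) ha ?_ (by omega) (by omega) ?_
    · have : a + 2 * n = a + n * 2 := by ring
      rw [this]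
      exact Nat.add_mul_mod_self_left a n 2
    · have : n + g + b = n + (b + g) := by ring
      rw [this]
      exact Nat.add_mod_left n (b + g)
  exact β.trans (β.trans r1 s2) r2

theorem dqs (h1 : MWGQ.PwxStmt) : DqsStmt := by
  intro n β hG g h hg hh
  have hn := hG.pos
  constructor
  · have r1 := Dq_key h1 hG hg (a := 2 * n + h) (b := n) (by omega) hn
    have r2 := Dq_key h1 hG hh (a := 2 * n) (b := n + g) (by omega) (by omega)
    have e1 : 2 * n + h + g = 2 * n + (g + h) := by ring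
    have e2 : n + g + h = n + (g + h) := by ring
    rw [e1] at r1
    rw [e2] at r2
    exact β.trans r1 r2
  · intro d hd
    have hbg : (n - 1) * g + n + g = n + n * g := by
      obtain ⟨m, hm⟩ : ∃ m, n = m + 1 := ⟨n - 1, by omega⟩
      rw [hm, Nat.add_sub_cancel]
      ring
    have hmod : (n - 1) * g + n + g ≡ n [MOD n] := by
      rw [hbg]
      exact Nat.add_mul_mod_self_left n n g
    have r0 : RR β (Wq (2 * n + d) n) (Wq (2 * n + d) ((n - 1) * g + n + g)) :=
      Wq_mod h1 hG (by omega) (by omega) (Nat.ModEq.refl _) hn (by omega) hmod.symm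
    have r1 := Dq_key h1 hG hg (a := 2 * n + d) (b := (n - 1) * g + n) (by omega) (by omega)
    have r2 : RR β (Wq (2 * n + d + g) ((n - 1) * g + n)) (Wq (2 * n + h) ((n - 1) * g + n)) := by
      refine Wq_mod h1 hG (by omega) (by omega) ?_ (by omega) (by omega) (Nat.ModEq.refl _)
      have e1 : 2 * n + d + g = 2 * n + (g + d) := by ring
      rw [e1]
      exact hd.add_left _
    have r3 := Dq_key h1 hG hh (a := 2 * n) (b := (n - 1) * g + n) (by omega) (by omega)
    have r4 : RR β (Wq (2 * n) ((n - 1) * g + n + h)) (Wq (2 * n) (n + d)) := by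
      refine Wq_mod h1 hG (by omega) (by omega) (Nat.ModEq.refl _) (by omega) (by omega) ?_
      have e2 : (n - 1) * g + n + h ≡ (n - 1) * g + n + (g + d) [MOD n] := hd.symm.add_left _
      have e3 : (n - 1) * g + n + (g + d) = (n - 1) * g + n + g + d := by ring
      rw [e3] at e2
      exact e2.trans (hmod.add_right d)
    exact β.trans (β.trans (β.trans (β.trans r0 (β.symm r1)) r2) r3) r4

end Pool.Agent.MWLQ.H98
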